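import Pool.Agent.H14.Th6

set_option autoImplicit false
open Finset Matrix Pool.Agent.H14.Th

namespace Pool.Agent.Results.MP_4e07e5_an.Four

/-- For every nondegenerate simplex in `[0,1]^4` some point of the cube has barycentric coordinates
with absolute sum above `1123/500`. -/
theorem result (v : Fin 5 → Fin 4 → ℝ) (hv : AffineIndependent ℝ v)
    (hq : ∀ j, v j ∈ Set.Icc (0 : Fin 4 → ℝ) 1) :
    ∃ x ∈ Set.Icc (0 : Fin 4 → ℝ) 1, ∃ l : Fin 5 → ℝ,
      ∑ j, l j = 1 ∧ ∑ j, l j • v j = x ∧ 1123 / 500 < ∑ j, |l j| := by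
  by_contra hn
  push Not at hn
  have hu := MM_unit hv
  set Y := (MM v)⁻¹ with hY
  have hXY : MM v * Y = 1 := mul_nonsing_inv _ hu
  have hYX : Y * MM v = 1 := nonsing_inv_mul _ hu
  refine noF Y (MM v) hXY hYX (fun j => by simp [MM, hc]) (fun i j => hc_abs (hq j) i) fun y y0 yb => ?_
  set x : Fin 4 → ℝ := fun i => (y i.succ + 1) / 2 with hx
  have hxy : hc x = y := by
    funext k
    refine Fin.cases ?_ (fun i => ?_) k
    · simp [hc, y0]
    · simp only [hc, Fin.cons_succ, hx]; ring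
  have hxq : x ∈ Set.Icc (0 : Fin 4 → ℝ) 1 := by
    constructor <;> intro i <;> have := abs_le.1 (yb i.succ) <;>
      simp only [hx, Pi.zero_apply, Pi.one_apply] <;> linarith [this.1, this.2]
  have hl := (MM_iff v (Y *ᵥ y) x).1 (by rw [mulVec_mulVec, hXY, one_mulVec, hxy])
  exact hn x hxq _ hl.1 hl.2

end Pool.Agent.Results.MP_4e07e5_an.Four
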